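import Mathlib

/-!
The arc-complexity of the uniform matroid `U_{r,n}` is at most `r (n - r) - 3` as soon as
`r ≥ 7` and `n - r ≥ 7`.
-/

set_option autoImplicit false

namespace Pool.Agent.Results.MP_0a0514_co.UnifArc

open Finset

/-- A path in the digraph with arc set `A`: a nonempty list of distinct vertices in which
consecutive vertices are joined by arcs. -/
def IsPath {V : Type} (A : Finset (V × V)) (l : List V) : Prop :=
  l ≠ [] ∧ l.Nodup ∧ l.IsChain (fun u v => (u, v) ∈ A)

/-- `R` is a routing from `X` to `T`: a set of pairwise vertex-disjoint paths, each ending in `T`,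
such that every `x ∈ X` is the first vertex of a path in `R`. -/
def IsRouting {V : Type} (A : Finset (V × V)) (X T : Set V) (R : Set (List V)) : Prop :=
  (∀ l ∈ R, IsPath A l) ∧ (∀ l ∈ R, ∀ l' ∈ R, l ≠ l' → List.Disjoint l l') ∧
    (∀ x ∈ X, ∃ l ∈ R, l.head? = some x) ∧ (∀ l ∈ R, ∃ t ∈ T, l.getLast? = some t)

/-- The digraph `(V, A)` with target set `T` and the ground set embedded in `V` by `ι` is a
standard representation of the matroid `M`. -/
def IsStdRep {α V : Type} (M : Matroid α) (A : Finset (V × V)) (ι : M.E ↪ V) (T : Set M.E) :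
    Prop :=
  (∀ X : Set M.E, M.Indep (Subtype.val '' X) ↔ ∃ R, IsRouting A (ι '' X) (ι '' T) R) ∧
    (∀ t ∈ T, ∀ v, (ι t, v) ∉ A) ∧ (∀ e, e ∉ T → ∀ v, (v, ι e) ∉ A)

/-- The arc-complexity of `M`: the least number of arcs of a standard representation. -/
noncomputable def arcC {α : Type} (M : Matroid α) : ℕ :=
  sInf {k | ∃ (V : Type) (_ : Finite V) (A : Finset (V × V)) (ι : M.E ↪ V) (T : Set M.E),
    IsStdRep M A ι T ∧ A.card = k}

/-- The uniform matroid `U_{r,n}` on `Fin n`. -/
def unif (r n : ℕ) : Matroid (Fin n) :=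
  (IndepMatroid.ofFinite (E := Set.univ) Set.finite_univ (fun I => I.ncard ≤ r)
    (by simp)
    (fun I J hJ hIJ => le_trans (Set.ncard_le_ncard hIJ (Set.toFinite _)) hJ)
    (by
      intro I J hI hJ hIJ
      obtain ⟨e, heJ, heI⟩ := Set.exists_mem_notMem_of_ncard_lt_ncard hIJ (Set.toFinite _)
      refine ⟨e, heJ, heI, ?_⟩
      rw [Set.ncard_insert_of_notMem heI (Set.toFinite _)]
      omega)
    (fun I _ => Set.subset_univ I)).matroid

lemma unif_indep {r n : ℕ} (I : Set (Fin n)) : (unif r n).Indep I ↔ I.ncard ≤ r := Iff.rfl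

/-- Any set of at most three of the numbers `0, …, 6` can be matched into the three windows
`{0,…,4}, {1,…,5}, {2,…,6}`. -/
lemma conc (S : Finset ℕ) (hS : S ⊆ range 7) (hc : S.card ≤ 3) :
    ∃ α : ℕ → Fin 3, Set.InjOn α S ∧ ∀ i ∈ S, (α i : ℕ) ≤ i ∧ i ≤ (α i : ℕ) + 4 := by
  obtain ⟨S3, h1, h2, h3⟩ := Finset.exists_subsuperset_card_eq hS hc
    (by rw [card_range]; norm_num)
  have hlt : ∀ i ∈ S3, (S3.filter (· < i)).card < 3 := by
    intro i hi
    rw [← h3]
    apply card_lt_card
    rw [Finset.ssubset_iff_of_subset (filter_subset _ _)]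
    exact ⟨i, hi, by simp⟩
  refine ⟨fun i => ⟨(S3.filter (· < i)).card % 3, Nat.mod_lt _ (by norm_num)⟩, ?_, ?_⟩
  · intro i hi j hj hij
    have hi' := h1 hi
    have hj' := h1 hj
    simp only [Fin.mk.injEq, Nat.mod_eq_of_lt (hlt i hi'), Nat.mod_eq_of_lt (hlt j hj')] at hij
    by_contra hne
    rcases Nat.lt_or_gt_of_ne hne with h | h
    · refine absurd hij (ne_of_lt (card_lt_card ?_))
      rw [Finset.ssubset_iff_of_subset]
      · exact ⟨i, by simp [hi', h], by simp⟩
      · intro x hx
        rw [mem_filter] at hx ⊢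
        exact ⟨hx.1, lt_trans hx.2 h⟩
    · refine absurd hij.symm (ne_of_lt (card_lt_card ?_))
      rw [Finset.ssubset_iff_of_subset]
      · exact ⟨j, by simp [hj', h], by simp⟩
      · intro x hx
        rw [mem_filter] at hx ⊢
        exact ⟨hx.1, lt_trans hx.2 h⟩
  · intro i hi
    have hi' := h1 hi
    simp only [Nat.mod_eq_of_lt (hlt i hi')]
    constructor
    · calc (S3.filter (· < i)).card ≤ (range i).card := by
            apply card_le_card
            intro x hx
            rw [mem_filter] at hx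
            exact mem_range.2 hx.2
        _ = i := card_range i
    · have hsplit : S3 ⊆ insert i (S3.filter (· < i) ∪ Ioo i 7) := by
        intro x hx
        have := mem_range.1 (h2 hx)
        rw [mem_insert, mem_union, mem_filter, mem_Ioo]
        rcases Nat.lt_trichotomy x i with h | h | h
        · exact Or.inr (Or.inl ⟨hx, h⟩)
        · exact Or.inl h
        · exact Or.inr (Or.inr ⟨h, this⟩)
      have hcard := (card_le_card hsplit).trans ((card_insert_le _ _).trans
        (Nat.add_le_add_right (card_union_le _ _) 1))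
      rw [h3, Nat.card_Ioo] at hcard
      have := mem_range.1 (h2 hi')
      omega

section Link

variable {m r : ℕ}

/-- The pair `(i, s i)` is not joined by a direct arc. -/
def Bad (s : Fin m → Fin r) (i : Fin m) : Prop := (i : ℕ) < 7 ∧ (s i : ℕ) < 7 ∧ (i : ℕ) ≠ s i

instance (s : Fin m → Fin r) (i : Fin m) : Decidable (Bad s i) := by
  unfold Bad
  infer_instance

lemma link (hr : 7 ≤ r) (I : Finset (Fin m)) (J : Finset (Fin r)) (hIJ : I.card = J.card) :
    ∃ s : Fin m → Fin r, (∀ i ∈ I, s i ∈ J) ∧ Set.InjOn s I ∧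
      ∀ i ∈ I, ∀ i' ∈ I, Bad s i → Bad s i' → (s i' : ℕ) ≠ i := by
  classical
  have h0 : ∃ s : Fin m → Fin r, (∀ i ∈ I, s i ∈ J) ∧ Set.InjOn s I := by
    let e := Finset.equivOfCardEq hIJ
    refine ⟨fun i => if h : i ∈ I then e ⟨i, h⟩ else ⟨0, by omega⟩, ?_, ?_⟩
    · intro i hi
      simp only [hi, dite_true]
      exact (e ⟨i, hi⟩).2
    · intro i hi j hj hij
      have hi' : i ∈ I := hi
      have hj' : j ∈ I := hj
      simp only [hi', hj', dite_true] at hij
      have := e.injective (Subtype.ext hij)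
      exact congrArg Subtype.val this
  let F : Finset (Fin m → Fin r) := univ.filter fun s => (∀ i ∈ I, s i ∈ J) ∧ Set.InjOn s I
  have hF : F.Nonempty := by
    obtain ⟨s, hs⟩ := h0
    exact ⟨s, by simp only [F, mem_filter, mem_univ, true_and]; exact hs⟩
  obtain ⟨s, hs, hmin⟩ := Finset.exists_min_image F (fun s => (I.filter (Bad s)).card) hF
  simp only [F, mem_filter, mem_univ, true_and] at hs hmin
  refine ⟨s, hs.1, hs.2, ?_⟩
  intro i hi i' hi' hb hb' heq
  have hne : i ≠ i' := by
    rintro rfl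
    exact hb'.2.2 heq.symm
  have hsw : ∀ j ∈ I, Equiv.swap i i' j ∈ I := by
    intro j hj
    rcases eq_or_ne j i with rfl | h1
    · rw [Equiv.swap_apply_left]; exact hi'
    rcases eq_or_ne j i' with rfl | h2
    · rw [Equiv.swap_apply_right]; exact hi
    rwa [Equiv.swap_apply_of_ne_of_ne h1 h2]
  have h1 := hmin (s ∘ Equiv.swap i i') ⟨fun j hj => hs.1 _ (hsw j hj), by
    intro j hj k hk hjk
    exact (Equiv.swap i i').injective (hs.2 (hsw j hj) (hsw k hk) hjk)⟩
  refine absurd h1 (not_le.2 (card_lt_card ?_))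
  have hbi : ¬ Bad (s ∘ Equiv.swap i i') i := by
    intro h
    apply h.2.2
    rw [Function.comp_apply, Equiv.swap_apply_left, heq]
  rw [Finset.ssubset_iff_of_subset]
  · refine ⟨i, mem_filter.2 ⟨hi, hb⟩, ?_⟩
    rw [mem_filter]
    exact fun h => hbi h.2
  · intro j hj
    rw [mem_filter] at hj ⊢
    refine ⟨hj.1, ?_⟩
    rcases eq_or_ne j i with rfl | h1
    · exact hb
    rcases eq_or_ne j i' with rfl | h2
    · exact hb'
    have := hj.2
    unfold Bad at this ⊢
    rwa [Function.comp_apply, Equiv.swap_apply_of_ne_of_ne h1 h2] at this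

end Link

/-- The vertices of the digraph: outputs, inputs, and two times three inner vertices. -/
inductive Vert (r m : ℕ) : Type
  | out (j : Fin r) : Vert r m
  | inp (i : Fin m) : Vert r m
  | a (k : Fin 3) : Vert r m
  | b (k : Fin 3) : Vert r m
  deriving DecidableEq

open Vert

instance (r m : ℕ) : Finite (Vert r m) := by
  have : Function.Surjective (fun x : (Fin r ⊕ Fin m) ⊕ (Fin 3 ⊕ Fin 3) =>
      (match x with
        | Sum.inl (Sum.inl j) => out j
        | Sum.inl (Sum.inr i) => inp i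
        | Sum.inr (Sum.inl k) => a k
        | Sum.inr (Sum.inr k) => b k : Vert r m)) := by
    intro v
    cases v with
    | out j => exact ⟨Sum.inl (Sum.inl j), rfl⟩
    | inp i => exact ⟨Sum.inl (Sum.inr i), rfl⟩
    | a k => exact ⟨Sum.inr (Sum.inl k), rfl⟩
    | b k => exact ⟨Sum.inr (Sum.inr k), rfl⟩
  exact Finite.of_surjective _ this

/-- Pairs joined by a direct arc. -/
def directPairs (r m : ℕ) : Finset (Fin m × Fin r) :=
  univ.filter fun q => ¬ ((q.1 : ℕ) < 7 ∧ (q.2 : ℕ) < 7 ∧ (q.1 : ℕ) ≠ q.2)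

lemma directPairs_card {r m : ℕ} (hr : 7 ≤ r) (hm : 7 ≤ m) :
    (directPairs r m).card + 42 ≤ r * m := by
  have h := Finset.card_filter_add_card_filter_not (s := (univ : Finset (Fin m × Fin r)))
    (fun q => (q.1 : ℕ) < 7 ∧ (q.2 : ℕ) < 7 ∧ (q.1 : ℕ) ≠ q.2)
  rw [card_univ, Fintype.card_prod, Fintype.card_fin, Fintype.card_fin] at h
  have h2 : 42 ≤ (univ.filter fun q : Fin m × Fin r =>
      (q.1 : ℕ) < 7 ∧ (q.2 : ℕ) < 7 ∧ (q.1 : ℕ) ≠ q.2).card := by
    have h3 : (univ.filter fun q : Fin 7 × Fin 7 => q.1 ≠ q.2).card = 42 := by decide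
    rw [← h3]
    apply Finset.card_le_card_of_injOn (fun q => (Fin.castLE hm q.1, Fin.castLE hr q.2))
    · intro q hq
      simp only [coe_filter, mem_univ, true_and, Set.mem_ofPred_eq] at hq ⊢
      refine ⟨by simp, by simp, ?_⟩
      simp only [Fin.val_castLE]
      exact fun h => hq (Fin.ext h)
    · intro q _ q' _ h
      simp only [Prod.mk.injEq] at h
      exact Prod.ext (Fin.castLE_injective hm h.1) (Fin.castLE_injective hr h.2)
  unfold directPairs
  rw [mul_comm r m]
  omega

/-- The arcs. -/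
def arcs (r m : ℕ) (hr : 7 ≤ r) (hm : 7 ≤ m) : Finset (Vert r m × Vert r m) :=
  (directPairs r m).image (fun q => (inp q.1, out q.2)) ∪
  ((univ : Finset (Fin 3 × Fin 5)).image
      (fun q => (inp ⟨(q.1 : ℕ) + q.2, by omega⟩, a q.1)) ∪
  ((univ : Finset (Fin 3 × Fin 3)).image (fun q => (a q.1, b q.2)) ∪
  (univ : Finset (Fin 3 × Fin 5)).image
      (fun q => (b q.1, out ⟨(q.1 : ℕ) + q.2, by omega⟩))))

lemma arcs_card {r m : ℕ} (hr : 7 ≤ r) (hm : 7 ≤ m) :
    (arcs r m hr hm).card + 3 ≤ r * m := by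
  have h1 : (arcs r m hr hm).card ≤ (directPairs r m).card + (15 + (9 + 15)) := by
    unfold arcs
    refine (card_union_le _ _).trans (Nat.add_le_add card_image_le ?_)
    refine (card_union_le _ _).trans (Nat.add_le_add (card_image_le.trans (by simp)) ?_)
    exact (card_union_le _ _).trans (Nat.add_le_add (card_image_le.trans (by simp))
      (card_image_le.trans (by simp)))
  have h2 := directPairs_card hr hm
  omega

lemma mem_arcs_inp_out {r m : ℕ} (hr : 7 ≤ r) (hm : 7 ≤ m) (i : Fin m) (j : Fin r)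
    (h : ¬ ((i : ℕ) < 7 ∧ (j : ℕ) < 7 ∧ (i : ℕ) ≠ j)) : (inp i, out j) ∈ arcs r m hr hm := by
  unfold arcs
  rw [mem_union]
  left
  rw [mem_image]
  exact ⟨(i, j), by simp only [directPairs, mem_filter, mem_univ, true_and]; exact h, rfl⟩

lemma mem_arcs_inp_a {r m : ℕ} (hr : 7 ≤ r) (hm : 7 ≤ m) (i : Fin m) (k : Fin 3)
    (h1 : (k : ℕ) ≤ i) (h2 : (i : ℕ) ≤ k + 4) : (inp i, a k) ∈ arcs r m hr hm := by
  unfold arcs
  rw [mem_union, mem_union]
  right; left
  rw [mem_image]
  refine ⟨(k, ⟨i - k, by omega⟩), mem_univ _, ?_⟩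
  simp only [Prod.mk.injEq, inp.injEq, and_true]
  ext
  simp only
  omega

lemma mem_arcs_a_b {r m : ℕ} (hr : 7 ≤ r) (hm : 7 ≤ m) (k l : Fin 3) :
    (a k, b l) ∈ arcs r m hr hm := by
  unfold arcs
  rw [mem_union, mem_union, mem_union]
  right; right; left
  rw [mem_image]
  exact ⟨(k, l), mem_univ _, rfl⟩

lemma mem_arcs_b_out {r m : ℕ} (hr : 7 ≤ r) (hm : 7 ≤ m) (k : Fin 3) (j : Fin r)
    (h1 : (k : ℕ) ≤ j) (h2 : (j : ℕ) ≤ k + 4) : (b k, out j) ∈ arcs r m hr hm := by
  unfold arcs
  rw [mem_union, mem_union, mem_union]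
  right; right; right
  rw [mem_image]
  refine ⟨(k, ⟨j - k, by omega⟩), mem_univ _, ?_⟩
  simp only [Prod.mk.injEq, out.injEq, true_and]
  ext
  simp only
  omega

lemma out_sink {r m : ℕ} (hr : 7 ≤ r) (hm : 7 ≤ m) (j : Fin r) (v : Vert r m) :
    (out j, v) ∉ arcs r m hr hm := by
  unfold arcs
  simp

lemma inp_source {r m : ℕ} (hr : 7 ≤ r) (hm : 7 ≤ m) (i : Fin m) (v : Vert r m) :
    (v, inp i) ∉ arcs r m hr hm := by
  unfold arcs
  simp

/-- The embedding of the ground set. -/
def place {r m : ℕ} (e : Fin r ⊕ Fin m) : Vert r m :=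
  match e with
  | Sum.inl j => out j
  | Sum.inr i => inp i

lemma place_injective {r m : ℕ} : Function.Injective (place (r := r) (m := m)) := by
  intro x y h
  rcases x with x | x <;> rcases y with y | y <;> simp_all [place]

/-- The main linking statement. -/
lemma routing_exists {r m : ℕ} (hr : 7 ≤ r) (hm : 7 ≤ m) (I : Finset (Fin m)) (J : Finset (Fin r))
    (hIJ : I.card = J.card) :
    ∃ R, IsRouting (arcs r m hr hm) ({v | ∃ i ∈ I, v = inp i} ∪ {v | ∃ j, j ∉ J ∧ v = out j})
      {v | ∃ j, v = out j} R := by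
  classical
  obtain ⟨s, hsJ, hsI, hbad⟩ := link hr I J hIJ
  -- the two small index sets
  let B := I.filter (Bad s)
  let S1 : Finset ℕ := B.image (fun i : Fin m => i.val)
  let S2 : Finset ℕ := B.image (fun i : Fin m => (s i).val)
  have hc1 : S1.card = B.card := card_image_of_injective _ Fin.val_injective
  have hc2 : S2.card = B.card := by
    apply card_image_of_injOn
    intro x hx y hy hxy
    have hx' := (mem_filter.1 hx).1
    have hy' := (mem_filter.1 hy).1
    exact hsI hx' hy' (Fin.ext hxy)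
  have hr1 : S1 ⊆ range 7 := by
    intro x hx
    obtain ⟨i, hi, rfl⟩ := mem_image.1 hx
    exact mem_range.2 (mem_filter.1 hi).2.1
  have hr2 : S2 ⊆ range 7 := by
    intro x hx
    obtain ⟨i, hi, rfl⟩ := mem_image.1 hx
    exact mem_range.2 (mem_filter.1 hi).2.2.1
  have hdis : Disjoint S1 S2 := by
    rw [Finset.disjoint_left]
    intro x h1 h2
    obtain ⟨i, hi, rfl⟩ := mem_image.1 h1
    obtain ⟨i', hi', h⟩ := mem_image.1 h2
    rw [mem_filter] at hi hi'
    exact hbad i hi.1 i' hi'.1 hi.2 hi'.2 h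
  have hB : B.card ≤ 3 := by
    have := card_le_card (union_subset hr1 hr2)
    rw [card_union_of_disjoint hdis, hc1, hc2, card_range] at this
    omega
  obtain ⟨f, hf1, hf2⟩ := conc S1 hr1 (by omega)
  obtain ⟨g, hg1, hg2⟩ := conc S2 hr2 (by omega)
  have hS1 : ∀ i ∈ I, Bad s i → (i : ℕ) ∈ S1 := fun i hi hb =>
    mem_image.2 ⟨i, mem_filter.2 ⟨hi, hb⟩, rfl⟩
  have hS2 : ∀ i ∈ I, Bad s i → (s i : ℕ) ∈ S2 := fun i hi hb =>
    mem_image.2 ⟨i, mem_filter.2 ⟨hi, hb⟩, rfl⟩
  let path : Fin m → List (Vert r m) := fun i =>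
    if Bad s i then [inp i, a (f i), b (g (s i)), out (s i)] else [inp i, out (s i)]
  have hmem : ∀ i v, v ∈ path i → v = inp i ∨ v = out (s i) ∨
      (Bad s i ∧ (v = a (f i) ∨ v = b (g (s i)))) := by
    intro i v hv
    by_cases hb : Bad s i
    · simp only [path, if_pos hb, List.mem_cons, List.not_mem_nil, or_false] at hv
      tauto
    · simp only [path, if_neg hb, List.mem_cons, List.not_mem_nil, or_false] at hv
      tauto
  refine ⟨{l | (∃ i ∈ I, l = path i) ∨ ∃ j, j ∉ J ∧ l = [out j]}, ?_, ?_, ?_, ?_⟩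
  · rintro l (⟨i, hi, rfl⟩ | ⟨j, hj, rfl⟩)
    · by_cases hb : Bad s i
      · simp only [path, if_pos hb]
        refine ⟨by simp, by simp, ?_⟩
        simp only [List.isChain_cons_cons, List.isChain_singleton, and_true]
        have h1 := hf2 _ (hS1 i hi hb)
        have h2 := hg2 _ (hS2 i hi hb)
        exact ⟨mem_arcs_inp_a hr hm _ _ h1.1 h1.2, mem_arcs_a_b hr hm _ _,
          mem_arcs_b_out hr hm _ _ h2.1 h2.2⟩
      · simp only [path, if_neg hb]
        refine ⟨by simp, by simp, ?_⟩
        simp only [List.isChain_cons_cons, List.isChain_singleton, and_true]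
        exact mem_arcs_inp_out hr hm _ _ hb
    · exact ⟨by simp, by simp, by simp⟩
  · rintro l (⟨i, hi, rfl⟩ | ⟨j, hj, rfl⟩) l' (⟨i', hi', rfl⟩ | ⟨j', hj', rfl⟩) hne v hv hv'
    · have hii : i ≠ i' := by
        rintro rfl
        exact hne rfl
      rcases hmem i v hv with rfl | rfl | ⟨hb, rfl | rfl⟩ <;>
        rcases hmem i' _ hv' with h | h | ⟨hb', h | h⟩ <;>
        simp only [reduceCtorEq, inp.injEq, out.injEq, a.injEq, b.injEq] at h
      · exact hii h
      · exact hii (hsI hi hi' h)
      · exact hii (Fin.ext (hf1 (hS1 i hi hb) (hS1 i' hi' hb') h))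
      · exact hii (hsI hi hi' (Fin.ext (hg1 (hS2 i hi hb) (hS2 i' hi' hb') h)))
    · rw [List.mem_singleton] at hv'
      subst hv'
      rcases hmem i _ hv with h | h | ⟨hb, h | h⟩ <;>
        simp only [reduceCtorEq, out.injEq] at h
      exact hj' (h ▸ hsJ i hi)
    · rw [List.mem_singleton] at hv
      subst hv
      rcases hmem i' _ hv' with h | h | ⟨hb, h | h⟩ <;>
        simp only [reduceCtorEq, out.injEq] at h
      exact hj (h ▸ hsJ i' hi')
    · rw [List.mem_singleton] at hv hv'
      subst hv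
      rw [hv'] at hne
      exact hne rfl
  · rintro v (⟨i, hi, rfl⟩ | ⟨j, hj, rfl⟩)
    · refine ⟨path i, Or.inl ⟨i, hi, rfl⟩, ?_⟩
      simp only [path]
      split_ifs <;> rfl
    · exact ⟨[out j], Or.inr ⟨j, hj, rfl⟩, rfl⟩
  · rintro l (⟨i, hi, rfl⟩ | ⟨j, hj, rfl⟩)
    · refine ⟨out (s i), ⟨s i, rfl⟩, ?_⟩
      simp only [path]
      split_ifs <;> rfl
    · exact ⟨out j, ⟨j, rfl⟩, rfl⟩

lemma IsRouting.mono {V : Type} {A : Finset (V × V)} {X Y T : Set V} {R : Set (List V)}
    (h : IsRouting A Y T R) (hXY : X ⊆ Y) : IsRouting A X T R :=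
  ⟨h.1, h.2.1, fun x hx => h.2.2.1 x (hXY hx), h.2.2.2⟩

lemma ncard_le_of_routing {V : Type} [Finite V] {A : Finset (V × V)} {X T : Set V}
    {R : Set (List V)} (h : IsRouting A X T R) : X.ncard ≤ T.ncard := by
  classical
  rcases X.eq_empty_or_nonempty with rfl | ⟨x0, -⟩
  · rw [Set.ncard_empty]
    exact Nat.zero_le _
  have : Nonempty V := ⟨x0⟩
  obtain ⟨-, hdis, hX, hT⟩ := h
  choose! P hP1 hP2 using hX
  choose! t ht1 ht2 using hT
  apply Set.ncard_le_ncard_of_injOn (fun x => t (P x)) (fun x hx => ht1 _ (hP1 x hx)) ?_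
    (Set.toFinite _)
  intro x hx y hy hxy
  simp only at hxy
  by_contra hne
  have hPne : P x ≠ P y := by
    intro h
    have h1 := hP2 x hx
    rw [h, hP2 y hy] at h1
    exact hne (Option.some.inj h1).symm
  have h1 : t (P x) ∈ P x := List.mem_of_getLast? (ht2 _ (hP1 x hx))
  have h2 : t (P x) ∈ P y := by
    rw [hxy]
    exact List.mem_of_getLast? (ht2 _ (hP1 y hy))
  exact hdis _ (hP1 x hx) _ (hP1 y hy) hPne h1 h2

/-- The arc-complexity of `U_{r,n}` is at most `r (n - r) - 3` whenever `r ≥ 7` and `n - r ≥ 7`;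
in particular it is not always `r (n - r)`. -/
theorem result (r n : ℕ) (hr : 7 ≤ r) (hn : r + 7 ≤ n) :
    arcC (unif r n) + 3 ≤ r * (n - r) := by
  classical
  obtain ⟨m, rfl⟩ : ∃ m, n = r + m := ⟨n - r, by omega⟩
  have hm : 7 ≤ m := by omega
  rw [Nat.add_sub_cancel_left]
  refine le_trans (Nat.add_le_add_right ?_ 3) (arcs_card hr hm)
  apply Nat.sInf_le
  let eqv : Fin (r + m) ≃ Fin r ⊕ Fin m := finSumFinEquiv.symm
  let ι : (unif r (r + m)).E ↪ Vert r m :=
    ⟨fun e => place (eqv e.1), fun x y h => Subtype.ext (eqv.injective (place_injective h))⟩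
  have hE : ∀ e : Fin (r + m), e ∈ (unif r (r + m)).E := fun e => Set.mem_univ e
  let T : Set (unif r (r + m)).E := {e | ∃ j, eqv e.1 = Sum.inl j}
  refine ⟨Vert r m, inferInstance, arcs r m hr hm, ι, T, ⟨?_, ?_, ?_⟩, rfl⟩
  · intro X
    have hT : ι '' T = {v | ∃ j, v = out j} := by
      ext v
      constructor
      · rintro ⟨e, ⟨j, hj⟩, rfl⟩
        exact ⟨j, by change place (eqv e.1) = _; rw [hj]; rfl⟩
      · rintro ⟨j, rfl⟩
        refine ⟨⟨eqv.symm (Sum.inl j), hE _⟩, ⟨j, by simp⟩, ?_⟩
        change place (eqv (eqv.symm (Sum.inl j))) = _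
        rw [Equiv.apply_symm_apply]
        rfl
    rw [hT, unif_indep]
    have hXc : (Subtype.val '' X).ncard = (ι '' X).ncard := by
      rw [Set.ncard_image_of_injective _ Subtype.val_injective,
        Set.ncard_image_of_injective _ ι.injective]
    constructor
    · intro hX
      obtain ⟨B, hXB, -, hB⟩ := Set.exists_subsuperset_card_eq
        (Set.subset_univ (Subtype.val '' X)) hX (by
          rw [Set.ncard_univ, Nat.card_eq_fintype_card, Fintype.card_fin]
          omega)
      let I : Finset (Fin m) := univ.filter fun i => eqv.symm (Sum.inr i) ∈ B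
      let J : Finset (Fin r) := univ.filter fun j => eqv.symm (Sum.inl j) ∉ B
      have hIJ : I.card = J.card := by
        have h1 : B.ncard = I.card + (univ.filter fun j => eqv.symm (Sum.inl j) ∈ B).card := by
          have h2 : B = eqv.symm '' (((univ.filter fun j => eqv.symm (Sum.inl j) ∈ B).disjSum I :
              Finset (Fin r ⊕ Fin m)) : Set (Fin r ⊕ Fin m)) := by
            ext e
            constructor
            · intro he
              refine ⟨eqv e, ?_, by simp⟩
              rcases he' : eqv e with j | i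
              · rw [mem_coe, Finset.inl_mem_disjSum, mem_filter]
                exact ⟨mem_univ _, by rw [← he']; simpa using he⟩
              · rw [mem_coe, Finset.inr_mem_disjSum, mem_filter]
                exact ⟨mem_univ _, by rw [← he']; simpa using he⟩
            · rintro ⟨x, hx, rfl⟩
              rcases x with j | i
              · rw [mem_coe, Finset.inl_mem_disjSum, mem_filter] at hx
                exact hx.2
              · rw [mem_coe, Finset.inr_mem_disjSum, mem_filter] at hx
                exact hx.2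
          conv_lhs => rw [h2]
          rw [Set.ncard_image_of_injective _ eqv.symm.injective, Set.ncard_coe_finset,
            Finset.card_disjSum, add_comm]
        have h3 := Finset.card_filter_add_card_filter_not (s := (univ : Finset (Fin r)))
          (fun j => eqv.symm (Sum.inl j) ∈ B)
        rw [card_univ, Fintype.card_fin] at h3
        change (univ.filter fun j => eqv.symm (Sum.inl j) ∈ B).card + J.card = r at h3
        omega
      obtain ⟨R, hR⟩ := routing_exists hr hm I J hIJ
      refine ⟨R, hR.mono ?_⟩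
      rintro v ⟨e, he, rfl⟩
      have heB : e.1 ∈ B := hXB ⟨e, he, rfl⟩
      change place (eqv e.1) ∈ _
      rcases he' : eqv e.1 with j | i
      · right
        refine ⟨j, ?_, rfl⟩
        rw [mem_filter]
        rintro ⟨-, h⟩
        apply h
        rw [← he']
        simpa using heB
      · left
        refine ⟨i, ?_, rfl⟩
        rw [mem_filter]
        refine ⟨mem_univ _, ?_⟩
        rw [← he']
        simpa using heB
    · rintro ⟨R, hR⟩
      have h1 := ncard_le_of_routing hR
      have h2 : ({v | ∃ j, v = out j} : Set (Vert r m)).ncard ≤ r := by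
        have : ({v | ∃ j, v = out j} : Set (Vert r m)) = out '' (Set.univ : Set (Fin r)) := by
          ext v
          constructor
          · rintro ⟨j, rfl⟩
            exact ⟨j, Set.mem_univ _, rfl⟩
          · rintro ⟨j, -, rfl⟩
            exact ⟨j, rfl⟩
        rw [this]
        refine (Set.ncard_image_le (Set.toFinite _)).trans ?_
        rw [Set.ncard_univ, Nat.card_eq_fintype_card, Fintype.card_fin]
      omega
  · rintro t ⟨j, hj⟩ v
    change (place (eqv t.1), v) ∉ _
    rw [hj]
    exact out_sink hr hm j v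
  · intro e he v
    change (v, place (eqv e.1)) ∉ _
    rcases he' : eqv e.1 with j | i
    · exact absurd ⟨j, he'⟩ he
    · exact inp_source hr hm i v

end Pool.Agent.Results.MP_0a0514_co.UnifArc
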